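import Mathlib

set_option autoImplicit false

namespace Pool.Agent.Results.MP_8cea72_an.No

open Set Filter Topology MeasureTheory
open scoped ENNReal ZeroAtInfty

/-- the lower `f`-density -/
noncomputable def ld (f : ℝ → ℝ) (A : Set ℝ) : ℝ≥0∞ :=
  liminf (fun t => volume (A ∩ Icc 0 (f t)) / ENNReal.ofReal t) atTop

/-- `f`-distributional chaos -/
def FDC {X : Type} [NormedAddCommGroup X] [NormedSpace ℝ X] (f : ℝ → ℝ) (T : ℝ → X →L[ℝ] X) :
    Prop :=
  ∃ (S : Set X) (σ : ℝ), ¬ S.Countable ∧ 0 < σ ∧ ∀ ε > 0, ∀ x ∈ S, ∀ y ∈ S, x ≠ y →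
    ld f {t | 0 ≤ t ∧ dist (T t x) (T t y) < σ} = 0 ∧
    ld f {t | 0 ≤ t ∧ ε ≤ dist (T t x) (T t y)} = 0

abbrev Y : Type := C₀(ℕ, ℝ)

theorem abs_le (x : Y) (j : ℕ) : |x j| ≤ ‖x‖ := x.toBCF.norm_coe_le_norm j

theorem norm_le {x : Y} {C : ℝ} (h : ∀ j, |x j| ≤ C) : ‖x‖ ≤ C :=
  (BoundedContinuousFunction.norm_le (f := x.toBCF) ((abs_nonneg _).trans (h 0))).2 h

theorem lim (x : Y) : Tendsto x atTop (𝓝 0) := by
  have := zero_at_infty x
  rwa [cocompact_eq_cofinite, Nat.cofinite_eq_atTop] at this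

def mk (g : ℕ → ℝ) (h : Tendsto g atTop (𝓝 0)) : Y :=
  ⟨⟨g, continuous_of_discreteTopology⟩, by rwa [cocompact_eq_cofinite, Nat.cofinite_eq_atTop]⟩

theorem mul_bd {g : ℕ → ℝ} {C : ℝ} (h : ∀ j, |g j| ≤ C) (x : Y) (j : ℕ) :
    |g j * x j| ≤ C * |x j| := by
  rw [abs_mul]; exact mul_le_mul_of_nonneg_right (h j) (abs_nonneg _)

noncomputable def mul (g : ℕ → ℝ) (C : ℝ) (h : ∀ j, |g j| ≤ C) : Y →L[ℝ] Y :=
  LinearMap.mkContinuous
    { toFun := fun x => mk (fun j => g j * x j) (squeeze_zero_norm (mul_bd h x)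
        (by simpa using (lim x).abs.const_mul C))
      map_add' := fun x y => by ext j; exact mul_add _ _ _
      map_smul' := fun c x => by ext j; exact mul_left_comm _ _ _ } C
    fun x => norm_le fun j => (mul_bd h x j).trans
      (mul_le_mul_of_nonneg_left (abs_le x j) ((abs_nonneg _).trans (h 0)))

def a : ℕ → ℕ
  | 0 => 1
  | k + 1 => (k + 2) * (3 * (k + 1) * (3 * (k + 1) ^ 3 * a k) ^ 2)

noncomputable def N (k : ℕ) : ℝ := 3 * (k + 1) ^ 3 * a k

noncomputable def b (k : ℕ) : ℝ := 3 * (k + 1) * N k ^ 2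

theorem a_succ (k : ℕ) : (a (k + 1) : ℝ) = (k + 2) * b k := by simp [a, b, N]

theorem a_pos (k : ℕ) : (1 : ℝ) ≤ a k := by
  have : 0 < a k := by induction k with
    | zero => exact one_pos
    | succ k ih => rw [a]; positivity
  exact_mod_cast this

theorem a_le_N (k : ℕ) : (k + 1) * a k ≤ N k := by
  have := a_pos k
  have h : (1 : ℝ) ≤ k + 1 := by linarith [Nat.cast_nonneg (α := ℝ) k]
  have h2 : (k + 1 : ℝ) ≤ (k + 1) ^ 3 := le_self_pow₀ h (by norm_num)
  unfold N; nlinarith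

theorem N_ge (k : ℕ) : (k : ℝ) + 1 ≤ N k :=
  (le_mul_of_one_le_right (by positivity) (a_pos k)).trans (a_le_N k)

theorem N_one (k : ℕ) : 1 ≤ N k := by linarith [N_ge k, Nat.cast_nonneg (α := ℝ) k]

theorem N_le_b (k : ℕ) : N k ≤ b k := by
  have := N_one k
  have := Nat.cast_nonneg (α := ℝ) k
  unfold b; nlinarith [mul_nonneg this (sq_nonneg (N k))]

theorem a_mono : Monotone fun k => (a k : ℝ) := monotone_nat_of_le_succ fun k => by
  have h1 := a_le_N k; have h2 := N_le_b k; have h3 := a_pos k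
  have h4 := Nat.cast_nonneg (α := ℝ) k
  have h5 : (0 : ℝ) ≤ k * a k := by positivity
  have h6 : 0 ≤ (k + 1) * b k := mul_nonneg (by positivity) (by linarith [N_one k])
  rw [a_succ]; linarith

theorem N_mono : Monotone N := fun i j h => by
  have : (i : ℝ) ≤ j := Nat.cast_le.2 h
  have := a_mono h
  unfold N; gcongr

theorem exp_le {u : ℝ} (hu : 0 < u) : Real.exp (-u) ≤ 1 / u ∧ Real.exp (-u) ≤ 2 / u ^ 2 := by
  have h1 := Real.add_one_le_exp u
  have h2 := Real.quadratic_le_exp_of_nonneg hu.le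
  rw [Real.exp_neg, ← one_div]
  exact ⟨one_div_le_one_div_of_le hu (by linarith),
    (div_le_div_iff₀ (Real.exp_pos u) (by positivity)).2 (by linarith)⟩

theorem exp_lip {u v : ℝ} (hu : 0 ≤ u) (hv : 0 ≤ v) :
    |Real.exp (-u) - Real.exp (-v)| ≤ |u - v| := by
  wlog h : u ≤ v generalizing u v
  · rw [abs_sub_comm, abs_sub_comm u]; exact this hv hu (not_le.1 h).le
  have h1 := Real.add_one_le_exp (u - v)
  have h2 : Real.exp (-u) ≤ 1 := Real.exp_le_one_iff.2 (by linarith)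
  have h3 : Real.exp (-v) = Real.exp (-u) * Real.exp (u - v) := by rw [← Real.exp_add]; ring_nf
  have h4 : Real.exp (-v) ≤ Real.exp (-u) := Real.exp_le_exp.2 (by linarith)
  have := Real.exp_pos (-u)
  rw [abs_of_nonneg (by linarith), abs_of_nonpos (by linarith), h3]
  nlinarith

noncomputable def D (t : ℝ) (j : ℕ) : ℝ := Real.exp (-(|t| / N j))

noncomputable def E (t : ℝ) (j : ℕ) : ℝ := |t| / a j * D t j

theorem D_pos (t : ℝ) (j : ℕ) : 0 < D t j := Real.exp_pos _

theorem D_le (t : ℝ) (j : ℕ) : |D t j| ≤ 1 := by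
  rw [abs_of_pos (D_pos t j)]
  exact Real.exp_le_one_iff.2 (neg_nonpos.2 (div_nonneg (abs_nonneg _) (by linarith [N_one j])))

theorem E_le' (t : ℝ) (j : ℕ) : |E t j| ≤ |t| / a j := by
  rw [E, abs_mul, abs_of_nonneg (by positivity)]
  exact mul_le_of_le_one_right (by positivity) (D_le t j)

theorem E_le (t : ℝ) (j : ℕ) : |E t j| ≤ |t| :=
  (E_le' t j).trans (div_le_self (abs_nonneg _) (a_pos j))

noncomputable def T (t : ℝ) : Y × Y →L[ℝ] Y × Y :=
  (mul (D t) 1 (D_le t) ∘L .fst ℝ Y Y + mul (E t) |t| (E_le t) ∘L .snd ℝ Y Y).prod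
    (mul (D t) 1 (D_le t) ∘L .snd ℝ Y Y)

theorem T1 (t : ℝ) (x : Y × Y) (j : ℕ) : (T t x).1 j = D t j * x.1 j + E t j * x.2 j := rfl

theorem T2 (t : ℝ) (x : Y × Y) (j : ℕ) : (T t x).2 j = D t j * x.2 j := rfl

theorem comb {p q P Q : ℝ} (x : Y × Y) (j : ℕ) (hp : |p| ≤ P) (hq : |q| ≤ Q) :
    |p * x.1 j + q * x.2 j| ≤ (P + Q) * ‖x‖ ∧ |p * x.2 j| ≤ (P + Q) * ‖x‖ := by
  have h1 := (abs_le x.1 j).trans (norm_fst_le x)
  have h2 := (abs_le x.2 j).trans (norm_snd_le x)
  have a1 := mul_le_mul hp h1 (abs_nonneg _) ((abs_nonneg _).trans hp)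
  have a2 := mul_le_mul hq h2 (abs_nonneg _) ((abs_nonneg _).trans hq)
  have a3 := mul_le_mul hp h2 (abs_nonneg _) ((abs_nonneg _).trans hp)
  have a4 := mul_nonneg ((abs_nonneg _).trans hq) (norm_nonneg x)
  have := abs_add_le (p * x.1 j) (q * x.2 j)
  simp only [abs_mul] at *
  constructor <;> linarith

theorem pnorm {x : Y × Y} {C : ℝ} (h : ∀ j, |x.1 j| ≤ C ∧ |x.2 j| ≤ C) : ‖x‖ ≤ C :=
  max_le (norm_le fun j => (h j).1) (norm_le fun j => (h j).2)

theorem cont (x : Y × Y) : Continuous fun t => T t x := by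
  refine continuous_iff_continuousAt.2 fun s => tendsto_iff_norm_sub_tendsto_zero.2 ?_
  refine squeeze_zero (g := fun t => (|t - s| + |t - s| * (1 + |s|)) * ‖x‖) (fun _ => norm_nonneg _)
    (fun t => pnorm fun j => ?_) (Continuous.tendsto' (by fun_prop) _ _ (by simp))
  have hN := N_one j
  have h0 := abs_abs_sub_abs_le_abs_sub t s
  have h1 : |D t j - D s j| ≤ |t - s| := by
    refine (exp_lip (by positivity) (by positivity)).trans ?_
    rw [← sub_div, abs_div, abs_of_pos (show 0 < N j by linarith)]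
    exact (div_le_self (abs_nonneg _) hN).trans h0
  have h2 : |E t j - E s j| ≤ |t - s| * (1 + |s|) := by
    rw [show E t j - E s j = ((|t| - |s|) * D t j + |s| * (D t j - D s j)) / a j by
      unfold E; ring, abs_div, Nat.abs_cast]
    refine (div_le_self (abs_nonneg _) (a_pos j)).trans ((abs_add_le _ _).trans ?_)
    rw [abs_mul, abs_mul, abs_abs]
    nlinarith [mul_le_mul h0 (D_le t j) (abs_nonneg _) (abs_nonneg _),
      mul_le_mul_of_nonneg_left h1 (abs_nonneg s)]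
  have := comb x j h1 h2
  simp only [Prod.fst_sub, Prod.snd_sub, ZeroAtInftyContinuousMap.sub_apply, T1, T2]
  convert this using 3 <;> ring

theorem low {K j : ℕ} (h : j ≤ K) {t : ℝ} (ht : 0 < t) (x : Y × Y) :
    |(T t x).1 j| ≤ 3 * N K ^ 2 / t * ‖x‖ ∧ |(T t x).2 j| ≤ 3 * N K ^ 2 / t * ‖x‖ := by
  have h1 := N_one j
  have h2 := N_mono h
  obtain ⟨e1, e2⟩ := exp_le (u := |t| / N j) (by positivity)
  have h3 : |D t j| ≤ N K ^ 2 / t := by
    rw [abs_of_pos (D_pos t j)]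
    refine e1.trans ?_
    rw [abs_of_pos ht, one_div_div]
    exact div_le_div_of_nonneg_right (by nlinarith) ht.le
  have h4 : |E t j| ≤ 2 * N K ^ 2 / t := by
    rw [E, abs_mul, abs_of_pos (D_pos t j), abs_of_nonneg (by positivity)]
    refine (mul_le_mul (div_le_self (abs_nonneg _) (a_pos j)) e2 (D_pos t j).le
      (abs_nonneg _)).trans ?_
    rw [abs_of_pos ht, show t * (2 / (t / N j) ^ 2) = 2 * N j ^ 2 / t by field_simp]
    exact div_le_div_of_nonneg_right (by nlinarith) ht.le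
  rw [T1, T2, show 3 * N K ^ 2 / t = N K ^ 2 / t + 2 * N K ^ 2 / t by ring]
  exact comb x j h3 h4

theorem small (x : Y × Y) {ε : ℝ} (hε : 0 < ε) :
    ∀ᶠ k : ℕ in atTop, ∀ t ∈ Icc (b k) ((k + 2) * b k), ‖T t x‖ < ε := by
  obtain ⟨K, hK⟩ := eventually_atTop.1 (((lim x.1).abs.eventually (ge_mem_nhds
    (show |(0 : ℝ)| < ε / 4 by simpa))).and ((lim x.2).abs.eventually (ge_mem_nhds
    (show |(0 : ℝ)| < ε / 4 by simpa))))
  filter_upwards [eventually_ge_atTop K, tendsto_natCast_atTop_atTop.eventually_ge_atTop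
    (2 * ‖x‖ / ε)] with k hk hk2 t ht
  have hN := N_one k
  have ht0 : 0 < t := by linarith [N_le_b k, ht.1]
  refine (pnorm (C := ε / 2) fun j => ?_).trans_lt (half_lt_self hε)
  rcases le_or_gt j k with h | h
  · have h1 : 3 * N k ^ 2 / t * ‖x‖ ≤ ε / 2 := by
      rw [div_mul_eq_mul_div, div_le_iff₀ ht0]
      have h2 := (div_le_iff₀ hε).1 hk2
      have h3 : ε / 2 * b k ≤ ε / 2 * t := mul_le_mul_of_nonneg_left ht.1 (half_pos hε).le
      have h4 : 0 ≤ 3 * N k ^ 2 := by positivity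
      unfold b at h3
      nlinarith [mul_le_mul_of_nonneg_left h2 h4, mul_nonneg h4 hε.le]
    exact ⟨(low h ht0 x).1.trans h1, (low h ht0 x).2.trans h1⟩
  · obtain ⟨h1, h2⟩ := hK j (by omega)
    have h3 : |E t j| ≤ 1 := (E_le' t j).trans ((div_le_one (by linarith [a_pos j])).2 (by
      rw [abs_of_pos ht0]; exact ht.2.trans ((a_succ k).ge.trans (a_mono h))))
    have a1 := mul_le_mul (D_le t j) h1 (abs_nonneg _) zero_le_one
    have a2 := mul_le_mul h3 h2 (abs_nonneg _) zero_le_one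
    have a3 := mul_le_mul (D_le t j) h2 (abs_nonneg _) zero_le_one
    have := abs_add_le (D t j * x.1 j) (E t j * x.2 j)
    rw [T1, T2]
    simp only [abs_mul] at *
    constructor <;> linarith

theorem ld_zero {A : Set ℝ} (p q : ℕ → ℝ) (h1 : ∀ k, 1 ≤ p k) (hp : ∀ k : ℕ, (k + 1) * p k ≤ q k)
    (h : ∀ᶠ k in atTop, ∀ t ∈ Icc (p k) (q k), t ∉ A) : ld (fun t => 1 + t) A = 0 := by
  have hq : Tendsto (fun k => q k - 1) atTop atTop := tendsto_atTop_mono
    (fun k => by nlinarith [h1 k, hp k, Nat.cast_nonneg (α := ℝ) k]) tendsto_natCast_atTop_atTop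
  refine le_antisymm (ENNReal.le_of_forall_pos_le_add fun δ hδ _ => ?_) zero_le
  rw [zero_add]
  refine liminf_le_of_frequently_le' (hq.frequently (Eventually.frequently ?_))
  filter_upwards [h, tendsto_natCast_atTop_atTop.eventually_ge_atTop (1 / δ : ℝ)] with k hk hk2
  refine ENNReal.div_le_of_le_mul ((measure_mono (t := Icc 0 (p k)) fun t ht =>
    ⟨ht.2.1, not_lt.1 fun h => hk t ⟨h.le, by linarith [ht.2.2]⟩ ht.1⟩).trans ?_)
  rw [Real.volume_Icc, sub_zero, ← ENNReal.ofReal_coe_nnreal, ← ENNReal.ofReal_mul δ.coe_nonneg]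
  refine ENNReal.ofReal_le_ofReal ?_
  have h2 := (div_le_iff₀ (show (0 : ℝ) < δ from hδ)).1 hk2
  have h3 : k * p k ≤ q k - 1 := by linarith [h1 k, hp k]
  nlinarith [mul_le_mul_of_nonneg_left h3 δ.coe_nonneg, h1 k]

noncomputable def w : Y × Y := (0, mk (fun k => 1 / (k + 1)) tendsto_one_div_add_atTop_nhds_zero_nat)

theorem big (k : ℕ) (t : ℝ) (ht : t ∈ Icc (N k / (k + 1)) (N k)) : (k : ℝ) + 1 ≤ ‖T t w‖ := by
  have hN := N_one k
  have ha := a_pos k
  have ht0 : 0 < t := lt_of_lt_of_le (by positivity) ht.1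
  refine le_trans ?_ ((le_abs_self _).trans ((abs_le _ k).trans (norm_fst_le _)))
  have e : (T t w).1 k = t / a k * D t k * (1 / (k + 1)) := by
    rw [T1, E, abs_of_pos ht0]; exact (congrArg₂ _ (mul_zero _) rfl).trans (zero_add _)
  have h1 : 1 / 3 ≤ D t k := by
    refine le_trans ?_ (Real.exp_le_exp.2 (neg_le_neg
      ((div_le_one (by linarith)).2 ((abs_of_pos ht0).le.trans ht.2))))
    rw [Real.exp_neg, ← one_div]
    exact one_div_le_one_div_of_le (Real.exp_pos _) (by linarith [Real.exp_one_lt_d9])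
  have h2 : 3 * (k + 1) ^ 2 ≤ t / a k := by
    refine (le_div_iff₀ (by linarith)).2 (le_trans (le_of_eq ?_) ht.1)
    unfold N; field_simp
  rw [e, mul_one_div, le_div_iff₀ (by positivity)]
  nlinarith [mul_le_mul h2 h1 (by norm_num) (by positivity)]

theorem result : ∃ (X : Type) (_ : NormedAddCommGroup X) (_ : NormedSpace ℝ X)
    (_ : CompleteSpace X) (T : ℝ → X →L[ℝ] X), T 0 = 1 ∧
    (∀ s t, 0 ≤ s → 0 ≤ t → T (s + t) = T s * T t) ∧ (∀ x, Continuous fun t => T t x) ∧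
    FDC (fun t => 1 + t) T ∧
    (∃ X₀ : Submodule ℝ X, Dense (X₀ : Set X) ∧ ∀ x ∈ X₀, Tendsto (fun t => T t x) atTop (𝓝 0)) ∧
    ∃ f : ℝ → ℝ, StrictMono f ∧ (∀ t, 0 ≤ t → 1 + t ≤ f t) ∧
      0 < liminf (fun t => ENNReal.ofReal (f t / t)) atTop ∧ ¬ FDC f T := by
  have hb (k : ℕ) : (k : ℝ) + 1 ≤ b k := (N_ge k).trans (N_le_b k)
  have hb1 (k : ℕ) : 1 ≤ b k := (N_one k).trans (N_le_b k)
  refine ⟨Y × Y, inferInstance, inferInstance, inferInstance, T, ?_, fun s t hs ht => ?_, cont,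
    ⟨range fun c : ℝ => c • w, 1, fun h => ?_, one_pos, ?_⟩, ?_, ?_⟩
  · refine ContinuousLinearMap.ext fun x => Prod.ext ?_ ?_ <;> ext j <;> simp [T1, T2, D, E]
  · have hD (j : ℕ) : D (s + t) j = D s j * D t j := by
      rw [D, D, D, ← Real.exp_add, abs_of_nonneg hs, abs_of_nonneg ht, abs_of_nonneg (by linarith)]
      ring_nf
    refine ContinuousLinearMap.ext fun x => Prod.ext ?_ ?_ <;> ext j
    · rw [mul_apply_eq_comp, T1, T1, T1, T2, E, E, E, hD, abs_of_nonneg hs,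
        abs_of_nonneg ht, abs_of_nonneg (by linarith)]
      ring
    · rw [mul_apply_eq_comp, T2, T2, T2, hD, mul_assoc]
  · have hw : w ≠ 0 := fun h => by
      have : (1 : ℝ) / ((0 : ℕ) + 1) = 0 := congrArg (fun x : Y × Y => x.2 0) h
      simp at this
    have := h.preimage_of_injOn (smul_left_injective ℝ hw).injOn
    rw [preimage_range] at this
    exact not_countable_univ this
  · rintro ε hε _ ⟨c, rfl⟩ _ ⟨c', rfl⟩ hne
    have hc : 0 < |c - c'| := abs_pos.2 (sub_ne_zero.2 fun h => hne (by rw [h]))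
    simp only [dist_eq_norm, ← map_sub]
    rw [show c • w - c' • w = (c - c') • w from (sub_smul c c' w).symm]
    constructor
    · refine ld_zero (fun k => N k / (k + 1)) N
        (fun k => (one_le_div (by positivity)).2 (N_ge k)) (fun k => le_of_eq (by field_simp)) ?_
      filter_upwards [tendsto_natCast_atTop_atTop.eventually_ge_atTop (1 / |c - c'|)] with k hk t ht h
      have h1 := h.2
      rw [map_smul, norm_smul, Real.norm_eq_abs] at h1
      have h2 := (div_le_iff₀ hc).1 hk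
      nlinarith [mul_le_mul_of_nonneg_left (big k t ht) hc.le]
    · refine ld_zero b (fun k => (k + 2) * b k) hb1 (fun k => by nlinarith [hb1 k]) ?_
      filter_upwards [small ((c - c') • w) hε] with k hk t ht h
      exact absurd (hk t ht) (not_lt.2 h.2)
  · refine ⟨{ carrier := {x | ∃ K, ∀ j, K < j → x.1 j = 0 ∧ x.2 j = 0}
              add_mem' := fun ⟨K, h⟩ ⟨L, h'⟩ => ⟨K + L, fun j hj => by
                simp [h j (by omega), h' j (by omega)]⟩
              zero_mem' := ⟨0, fun _ _ => ⟨rfl, rfl⟩⟩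
              smul_mem' := fun c _ ⟨K, h⟩ => ⟨K, fun j hj => by simp [h j hj]⟩ }, ?_, ?_⟩
    · refine Metric.dense_iff.2 fun x ε hε => ?_
      obtain ⟨K, hK⟩ := eventually_atTop.1 (((lim x.1).abs.eventually (ge_mem_nhds
        (show |(0 : ℝ)| < ε / 2 by simpa))).and ((lim x.2).abs.eventually (ge_mem_nhds
        (show |(0 : ℝ)| < ε / 2 by simpa))))
      let m := mul (fun j => if j ≤ K then 1 else 0) 1 fun j => by split_ifs <;> simp
      have hm (y : Y) (j : ℕ) : m y j = (if j ≤ K then 1 else 0) * y j := rfl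
      refine ⟨(m x.1, m x.2), ?_, K, fun j hj => by simp [hm, hj.not_ge]⟩
      rw [Metric.mem_ball, dist_eq_norm]
      refine (pnorm (C := ε / 2) fun j => ?_).trans_lt (half_lt_self hε)
      simp only [Prod.fst_sub, Prod.snd_sub, ZeroAtInftyContinuousMap.sub_apply, hm]
      split_ifs with h
      · simpa using (half_pos hε).le
      · simpa using hK j (by omega)
    · rintro x ⟨K, hK⟩
      refine squeeze_zero_norm' (a := fun t => 3 * N K ^ 2 / t * ‖x‖) ?_
        (by simpa using (tendsto_const_nhds.div_atTop tendsto_id).mul_const ‖x‖)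
      filter_upwards [eventually_gt_atTop 0] with t ht
      refine pnorm fun j => ?_
      rcases le_or_gt j K with h | h
      · exact low h ht x
      · have : 0 ≤ 3 * N K ^ 2 / t * ‖x‖ := by positivity
        simpa [T1, T2, hK j h] using this
  · have hf (t : ℝ) : 1 + t ≤ a (⌈t⌉₊ + 1) + t := by linarith [a_pos (⌈t⌉₊ + 1)]
    refine ⟨fun t => a (⌈t⌉₊ + 1) + t, fun s t h => add_lt_add_of_le_of_lt
      (a_mono (Nat.succ_le_succ (Nat.ceil_mono h.le))) h, fun t _ => hf t,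
      lt_of_lt_of_le one_pos (le_liminf_of_le (h := ?_)), ?_⟩
    · filter_upwards [eventually_gt_atTop 0] with t ht
      exact ENNReal.one_le_ofReal.2 ((one_le_div ht).2 (by linarith [hf t]))
    · rintro ⟨S, σ, hS, hσ, h⟩
      obtain ⟨x, hx, y, hy, hxy⟩ : S.Nontrivial :=
        not_subsingleton_iff.1 fun h => hS h.countable
      refine absurd (h 1 one_pos x hx y hy hxy).1 (ne_of_gt (lt_of_lt_of_le one_pos
        (le_liminf_of_le (h := ?_))))
      filter_upwards [eventually_gt_atTop 0, tendsto_nat_ceil_atTop.eventually (small (x - y) hσ)]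
        with t ht hk
      have h1 := Nat.le_ceil t
      generalize ⌈t⌉₊ = k at *
      refine (ENNReal.le_div_iff_mul_le (Or.inl (by simpa)) (Or.inl (by simp))).2 ?_
      refine le_trans ?_ (measure_mono (s := Icc (b k) ((k + 2) * b k)) fun s hs =>
        ⟨⟨by linarith [hb1 k, hs.1], by rw [dist_eq_norm, ← map_sub]; exact hk s hs⟩,
          by linarith [hb1 k, hs.1], by linarith [a_succ k, hs.2]⟩)
      rw [one_mul, Real.volume_Icc]
      exact ENNReal.ofReal_le_ofReal (by nlinarith [hb1 k, Nat.cast_nonneg (α := ℝ) k])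

end Pool.Agent.Results.MP_8cea72_an.No
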